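import Mathlib

/-!
# Kimura-finiteness of noncommutative and of commutative motives

`NC`: the endomorphism rings of the tensor powers of an object of a `ℚ`-linear symmetric monoidal
category, with the tensor powers of endomorphisms and the permutations of the factors.

`Sch`: a smooth proper scheme `X`: the correspondences of all degrees on the powers of `X` and their
action on cohomology.
-/

set_option autoImplicit false
set_option linter.unusedSectionVars false

open DirectSum

namespace Pool.Agent.TH30.KF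

/-- The endomorphism rings `E n = End(M^{⊗ n})` of the tensor powers of an object `M` of a
`ℚ`-linear symmetric monoidal category. -/
structure NC where
  /-- the ring `End(M^{⊗ n})` -/
  E : ℕ → Type
  [ring : ∀ n, Ring (E n)]
  [alg : ∀ n, Algebra ℚ (E n)]
  /-- the tensor powers `f ↦ f^{⊗ n}` of the endomorphisms of `M = M^{⊗ 1}` -/
  tp : ∀ n, E 1 →* E n
  /-- the permutations of the factors -/
  s : ∀ n, Equiv.Perm (Fin n) →* E n
  comm : ∀ n (σ : Equiv.Perm (Fin n)) (f : E 1), s n σ * tp n f = tp n f * s n σ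

attribute [instance] NC.ring NC.alg

namespace NC

variable (M : NC)

/-- the antisymmetrisation `∑ sgn(σ) σ` (`n!` times the projector onto `Λⁿ`) -/
def alt (n : ℕ) : M.E n := ∑ σ : Equiv.Perm (Fin n), (Equiv.Perm.sign σ : ℤ) • M.s n σ

/-- the symmetrisation `∑ σ` (`n!` times the projector onto `Symⁿ`) -/
def sym (n : ℕ) : M.E n := ∑ σ : Equiv.Perm (Fin n), M.s n σ

/-- the direct summand `(M, p)` is even: `Λⁿ(M, p) = 0` for some `n` -/
def Even (p : M.E 1) : Prop := ∃ n, M.alt n * M.tp n p = 0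

/-- the direct summand `(M, p)` is odd: `Symⁿ(M, p) = 0` for some `n` -/
def Odd (p : M.E 1) : Prop := ∃ n, M.sym n * M.tp n p = 0

/-- `M` is Kimura-finite: the direct sum of an even and an odd object -/
def KimuraFinite : Prop := ∃ p : M.E 1, IsIdempotentElem p ∧ M.Even p ∧ M.Odd (1 - p)

/-- an isomorphism of the systems of the endomorphism rings, induced by an isomorphism `M ≅ N` -/
structure Iso (M N : NC) where
  /-- the isomorphisms `End(M^{⊗ n}) ≅ End(N^{⊗ n})` -/
  e : ∀ n, M.E n ≃+* N.E n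
  tp : ∀ n f, e n (M.tp n f) = N.tp n (e 1 f)
  s : ∀ n σ, e n (M.s n σ) = N.s n σ

end NC

/-- A smooth proper scheme `X`: `E n` is the ring of the correspondences of all degrees on `Xⁿ` (the
endomorphism ring of the noncommutative motive of `Xⁿ`), `deg i` the correspondences of degree `i`
on `X` (`deg 0` is the endomorphism ring of the Chow motive), with the action on the cohomology of
`X` and of its powers. -/
structure Sch (K : Type) [Field K] [CharZero K] extends NC where
  /-- the correspondences of degree `i` -/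
  deg : ℤ → Submodule ℚ (E 1)
  [graded : GradedAlgebra deg]
  /-- the cohomology of `X` -/
  V : Type
  [addV : AddCommGroup V]
  [modV : Module K V]
  /-- the cohomology of degree `j` -/
  coh : ℤ → Submodule K V
  [dec : Decomposition coh]
  /-- the action of the correspondences -/
  ρ : E 1 →+* Module.End K V
  ρ_deg : ∀ i, ∀ f ∈ deg i, ∀ j, ∀ v ∈ coh j, ρ f v ∈ coh (j + 2 * i)
  /-- the cohomology of `Xⁿ` -/
  W : ℕ → Type
  [addW : ∀ n, AddCommGroup (W n)]
  [modW : ∀ n, Module K (W n)]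
  /-- the action of the correspondences on the cohomology of `Xⁿ` -/
  τ : ∀ n, E n →+* Module.End K (W n)
  /-- the tensor power `v ↦ v^{⊗ n}` -/
  vp : ∀ n, V → W n
  vp_ne : ∀ n v, v ≠ 0 → vp n v ≠ 0
  vp_tp : ∀ n f v, τ n (tp n f) (vp n v) = vp n (ρ f v)
  vp_even : ∀ n σ, ∀ v ∈ ⨆ j, coh (2 * j), τ n (s n σ) (vp n v) = vp n v
  vp_odd : ∀ n σ, ∀ v ∈ ⨆ j, coh (2 * j + 1), τ n (s n σ) (vp n v) =
    (Equiv.Perm.sign σ : ℤ) • vp n v

attribute [instance] Sch.graded Sch.addV Sch.modV Sch.dec Sch.addW Sch.modW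

namespace Sch

variable {K : Type} [Field K] [CharZero K] (X : Sch K)

/-- the Chow motive of `X` is Kimura-finite -/
def ChowKimuraFinite : Prop :=
  ∃ p ∈ X.deg 0, IsIdempotentElem p ∧ X.toNC.Even p ∧ X.toNC.Odd (1 - p)

/-- the theorem of Kimura, O'Sullivan and André-Kahn for the noncommutative motive of `X`: if it is
Kimura-finite, its endomorphisms which act as zero on cohomology are nilpotent -/
def NilpotenceTheorem : Prop :=
  X.toNC.KimuraFinite → ∀ f : X.E 1, X.ρ f = 0 → IsNilpotent f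

theorem kills_odd {p : X.E 1} (h : X.toNC.Even p) (v : X.V)
    (hv : v ∈ ⨆ j, X.coh (2 * j + 1)) (hpv : X.ρ p v = v) : v = 0 := by
  obtain ⟨n, hn⟩ := h
  by_contra hne
  have h1 : X.τ n (X.toNC.alt n * X.tp n p) (X.vp n v) = 0 := by
    rw [hn, map_zero, LinearMap.zero_apply]
  rw [map_mul, Module.End.mul_apply, X.vp_tp, hpv, NC.alt, map_sum, LinearMap.sum_apply] at h1
  have h2 : ∀ σ : Equiv.Perm (Fin n),
      X.τ n ((Equiv.Perm.sign σ : ℤ) • X.s n σ) (X.vp n v) = X.vp n v := by
    intro σ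
    rw [map_zsmul, LinearMap.smul_apply, X.vp_odd n σ v hv, smul_smul, ← Units.val_mul,
      Int.units_mul_self, Units.val_one, one_smul]
  rw [Finset.sum_congr rfl fun σ _ => h2 σ, Finset.sum_const, Finset.card_univ,
    ← Nat.cast_smul_eq_nsmul K] at h1
  rcases smul_eq_zero.1 h1 with h3 | h3
  · have : Fintype.card (Equiv.Perm (Fin n)) = 0 := by exact_mod_cast h3
    rw [Fintype.card_eq_zero_iff] at this
    exact this.elim 1
  · exact X.vp_ne n v hne h3

theorem kills_even {q : X.E 1} (h : X.toNC.Odd q) (v : X.V)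
    (hv : v ∈ ⨆ j, X.coh (2 * j)) (hqv : X.ρ q v = v) : v = 0 := by
  obtain ⟨n, hn⟩ := h
  by_contra hne
  have h1 : X.τ n (X.toNC.sym n * X.tp n q) (X.vp n v) = 0 := by
    rw [hn, map_zero, LinearMap.zero_apply]
  rw [map_mul, Module.End.mul_apply, X.vp_tp, hqv, NC.sym, map_sum, LinearMap.sum_apply] at h1
  have h2 : ∀ σ : Equiv.Perm (Fin n), X.τ n (X.s n σ) (X.vp n v) = X.vp n v := fun σ =>
    X.vp_even n σ v hv
  rw [Finset.sum_congr rfl fun σ _ => h2 σ, Finset.sum_const, Finset.card_univ,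
    ← Nat.cast_smul_eq_nsmul K] at h1
  rcases smul_eq_zero.1 h1 with h3 | h3
  · have : Fintype.card (Equiv.Perm (Fin n)) = 0 := by exact_mod_cast h3
    rw [Fintype.card_eq_zero_iff] at this
    exact this.elim 1
  · exact X.vp_ne n v hne h3

open scoped Classical in
theorem comp_sum (f : X.E 1) (v : X.V) :
    X.ρ f v = ∑ i ∈ (decompose X.deg f).support, X.ρ (decompose X.deg f i : X.E 1) v := by
  conv_lhs => rw [← sum_support_decompose X.deg f]
  rw [map_sum, LinearMap.sum_apply]

theorem mem_odd (f : X.E 1) (j : ℤ) (v : X.V) (hv : v ∈ X.coh (2 * j + 1)) :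
    X.ρ f v ∈ ⨆ j, X.coh (2 * j + 1) := by
  rw [X.comp_sum]
  refine Submodule.sum_mem _ fun i _ => ?_
  have h1 := X.ρ_deg i _ (SetLike.coe_mem (decompose X.deg f i)) _ v hv
  have h2 : 2 * j + 1 + 2 * i = 2 * (j + i) + 1 := by ring
  rw [h2] at h1
  exact Submodule.mem_iSup_of_mem (j + i) h1

theorem mem_even (f : X.E 1) (j : ℤ) (v : X.V) (hv : v ∈ X.coh (2 * j)) :
    X.ρ f v ∈ ⨆ j, X.coh (2 * j) := by
  rw [X.comp_sum]
  refine Submodule.sum_mem _ fun i _ => ?_
  have h1 := X.ρ_deg i _ (SetLike.coe_mem (decompose X.deg f i)) _ v hv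
  have h2 : 2 * j + 2 * i = 2 * (j + i) := by ring
  rw [h2] at h1
  exact Submodule.mem_iSup_of_mem (j + i) h1

/-- a Kimura idempotent acts on cohomology as the projector onto the even part -/
theorem act_odd {p : X.E 1} (hp : IsIdempotentElem p) (h : X.toNC.Even p) (j : ℤ) (v : X.V)
    (hv : v ∈ X.coh (2 * j + 1)) : X.ρ p v = 0 := by
  refine X.kills_odd h _ (X.mem_odd p j v hv) ?_
  rw [← Module.End.mul_apply, ← map_mul, hp.eq]

theorem act_even {p : X.E 1} (hp : IsIdempotentElem p) (h : X.toNC.Odd (1 - p)) (j : ℤ)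
    (v : X.V) (hv : v ∈ X.coh (2 * j)) : X.ρ p v = v := by
  have h1 : X.ρ (1 - p) v = 0 := by
    refine X.kills_even h _ (X.mem_even (1 - p) j v hv) ?_
    rw [← Module.End.mul_apply, ← map_mul, hp.one_sub.eq]
  rw [map_sub, map_one, LinearMap.sub_apply, Module.End.one_apply, sub_eq_zero] at h1
  exact h1.symm

/-- the component of degree zero of a Kimura idempotent acts in the same way -/
theorem comp_zero {p : X.E 1} (hp : IsIdempotentElem p) (h : X.toNC.Even p)
    (h' : X.toNC.Odd (1 - p)) : X.ρ (decompose X.deg p 0 : X.E 1) = X.ρ p := by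
  classical
  have key : ∀ (j : ℤ) (v : X.V), v ∈ X.coh j → X.ρ p v ∈ X.coh j →
      X.ρ (decompose X.deg p 0 : X.E 1) v = X.ρ p v := by
    intro j v hv hpv
    have h1 : (decompose X.coh (X.ρ p v) j : X.V) = X.ρ p v := decompose_of_mem_same X.coh hpv
    have h2 : (decompose X.coh (X.ρ p v) j : X.V) =
        ∑ i ∈ (decompose X.deg p).support,
          (decompose X.coh (X.ρ (decompose X.deg p i : X.E 1) v) j : X.V) := by
      conv_lhs => rw [X.comp_sum p v]
      rw [decompose_sum, DFinsupp.finsetSum_apply, AddSubmonoidClass.coe_finsetSum]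
    have h3 : ∀ i : ℤ, i ≠ 0 →
        (decompose X.coh (X.ρ (decompose X.deg p i : X.E 1) v) j : X.V) = 0 := by
      intro i hi
      refine decompose_of_mem_ne X.coh (X.ρ_deg i _ (SetLike.coe_mem _) j v hv) ?_
      omega
    have h4 : (decompose X.coh (X.ρ (decompose X.deg p 0 : X.E 1) v) j : X.V) =
        X.ρ (decompose X.deg p 0 : X.E 1) v := by
      refine decompose_of_mem_same X.coh ?_
      have := X.ρ_deg 0 _ (SetLike.coe_mem (decompose X.deg p 0)) j v hv
      simpa using this
    rw [← h1, h2]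
    by_cases h0 : (0 : ℤ) ∈ (decompose X.deg p).support
    · rw [Finset.sum_eq_single_of_mem 0 h0 fun i _ hi => h3 i hi, h4]
    · rw [Finset.sum_eq_zero fun i hi => h3 i fun h5 => h0 (h5 ▸ hi)]
      rw [DFinsupp.notMem_support_iff] at h0
      rw [h0, ZeroMemClass.coe_zero, map_zero, LinearMap.zero_apply]
  refine LinearMap.ext fun v => ?_
  refine Decomposition.inductionOn X.coh (motive := fun v =>
    X.ρ (decompose X.deg p 0 : X.E 1) v = X.ρ p v) ?_ ?_ ?_ v
  · rw [map_zero, map_zero]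
  · rintro i ⟨m, hm0⟩
    obtain ⟨k, rfl⟩ | ⟨k, rfl⟩ := Int.even_or_odd i
    · have hm : m ∈ X.coh (2 * k) := by
        rw [two_mul]
        exact hm0
      have h5 := X.act_even hp h' k m hm
      exact key _ m hm0 (by rw [h5]; exact hm0)
    · have h5 := X.act_odd hp h k m hm0
      exact key _ m hm0 (by rw [h5]; exact Submodule.zero_mem _)
  · intro v w hv hw
    rw [map_add, map_add, hv, hw]

/-- the endomorphism ring of the Chow motive -/
def zero : Subring (X.E 1) where
  carrier := {f | f ∈ X.deg 0}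
  mul_mem' := by
    intro a b ha hb
    have := SetLike.GradedMul.mul_mem (A := X.deg) ha hb
    simpa using this
  one_mem' := SetLike.GradedOne.one_mem (A := X.deg)
  add_mem' := fun ha hb => Submodule.add_mem _ ha hb
  zero_mem' := Submodule.zero_mem _
  neg_mem' := fun ha => Submodule.neg_mem _ ha

end Sch

namespace NC

variable (M : NC)

theorem alt_comm (n : ℕ) (f : M.E 1) : M.alt n * M.tp n f = M.tp n f * M.alt n := by
  rw [alt, Finset.sum_mul, Finset.mul_sum]
  refine Finset.sum_congr rfl fun σ _ => ?_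
  rw [smul_mul_assoc, mul_smul_comm, M.comm]

theorem sym_comm (n : ℕ) (f : M.E 1) : M.sym n * M.tp n f = M.tp n f * M.sym n := by
  rw [sym, Finset.sum_mul, Finset.mul_sum]
  exact Finset.sum_congr rfl fun σ _ => M.comm n σ f

theorem even_conj {p u w : M.E 1} (h : M.Even p) : M.Even (w * p * u) := by
  obtain ⟨n, hn⟩ := h
  refine ⟨n, ?_⟩
  rw [map_mul, map_mul, ← mul_assoc, ← mul_assoc, M.alt_comm, mul_assoc (M.tp n w), hn, mul_zero,
    zero_mul]

theorem odd_conj {p u w : M.E 1} (h : M.Odd p) : M.Odd (w * p * u) := by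
  obtain ⟨n, hn⟩ := h
  refine ⟨n, ?_⟩
  rw [map_mul, map_mul, ← mul_assoc, ← mul_assoc, M.sym_comm, mul_assoc (M.tp n w), hn, mul_zero,
    zero_mul]

theorem Iso.symm_tp {M N : NC} (φ : M.Iso N) (n : ℕ) (f : N.E 1) :
    (φ.e n).symm (N.tp n f) = M.tp n ((φ.e 1).symm f) := by
  rw [RingEquiv.symm_apply_eq, φ.tp, RingEquiv.apply_symm_apply]

theorem Iso.kimuraFinite {M N : NC} (φ : M.Iso N) (h : M.KimuraFinite) : N.KimuraFinite := by
  obtain ⟨p, hp, ⟨n, hn⟩, ⟨m, hm⟩⟩ := h
  refine ⟨φ.e 1 p, hp.map (φ.e 1), ⟨n, ?_⟩, ⟨m, ?_⟩⟩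
  · have h1 := congrArg (φ.e n) hn
    rw [map_mul, map_zero, φ.tp, alt, map_sum] at h1
    rw [alt]
    convert h1 using 3
    rw [map_zsmul, φ.s]
  · have h1 := congrArg (φ.e m) hm
    rw [map_mul, map_zero, φ.tp, sym, map_sum, map_sub, map_one] at h1
    rw [sym]
    convert h1 using 3
    rw [φ.s]

/-- the inverse isomorphism -/
def Iso.inv {M N : NC} (φ : M.Iso N) : N.Iso M where
  e := fun n => (φ.e n).symm
  tp := fun n f => φ.symm_tp n f
  s := fun n σ => by rw [RingEquiv.symm_apply_eq, φ.s]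

end NC

namespace Sch

variable {K : Type} [Field K] [CharZero K] (X : Sch K)

/-- **`h(X)` is Kimura-finite if and only if `U(perf_dg X)` is.** -/
theorem chow_iff (hN : X.NilpotenceTheorem) : X.ChowKimuraFinite ↔ X.toNC.KimuraFinite := by
  constructor
  · rintro ⟨p, _, hp, h, h'⟩
    exact ⟨p, hp, h, h'⟩
  · rintro ⟨p, hp, h, h'⟩
    have nil := hN ⟨p, hp, h, h'⟩
    let f : X.zero →+* Module.End K X.V := X.ρ.comp X.zero.subtype
    have hker : ∀ x ∈ RingHom.ker f, IsNilpotent x := by
      intro x hx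
      obtain ⟨n, hn⟩ := nil x hx
      exact ⟨n, Subtype.ext (by simpa using hn)⟩
    have hmem : X.ρ p ∈ f.range :=
      ⟨⟨(decompose X.deg p 0 : X.E 1), SetLike.coe_mem _⟩, X.comp_zero hp h h'⟩
    obtain ⟨⟨q, hq0⟩, hq, hqp⟩ := exists_isIdempotentElem_eq_of_ker_isNilpotent f hker (X.ρ p)
      hmem (hp.map X.ρ)
    have hqi : q * q = q := congrArg Subtype.val hq
    have hρ : X.ρ q = X.ρ p := hqp
    have hpp : p * p = p := hp.eq
    have hPP : X.ρ p * X.ρ p = X.ρ p := by rw [← map_mul, hpp]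
    let u : X.E 1 := p * q + (1 - p) * (1 - q)
    have hu : X.ρ (u - 1) = 0 := by
      simp only [u, map_sub, map_add, map_mul, map_one, hρ, sub_mul, mul_sub, hPP, one_mul,
        mul_one]
      abel
    have hunit : IsUnit u := by
      have h1 := (nil (u - 1) hu).isUnit_one_add
      rwa [add_sub_cancel] at h1
    obtain ⟨⟨u', w, huw, hwu⟩, hu'⟩ := hunit
    simp only at hu'
    subst hu'
    have e1 : p * u = u * q := by
      simp only [u, mul_add, add_mul, mul_sub, sub_mul, one_mul, mul_one, ← mul_assoc, hpp]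
      simp only [mul_assoc, hqi]
      abel
    have e2 : w * p * u = q := by
      rw [mul_assoc, e1, ← mul_assoc, hwu, one_mul]
    have e3 : w * (1 - p) * u = 1 - q := by
      rw [mul_sub, sub_mul, mul_one, hwu, e2]
    refine ⟨q, hq0, hqi, ?_, ?_⟩
    · rw [← e2]
      exact X.toNC.even_conj h
    · rw [← e3]
      exact X.toNC.odd_conj h'

end Sch

end Pool.Agent.TH30.KF
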